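import Pool.Agent.Helper43_HAM.Stmts

/-!
# Squad HAM, module MEM: membership
-/

set_option autoImplicit false

namespace Pool.Agent.HAM.H51

open Pool.Agent.Helper32_HCK (DecisionProblem)

/-- reading a letter of an encoded sequence, from right to left -/
def dsq : GLetter → ℕ × List ℕ → ℕ × List ℕ
  | .tick, (k, c) => (k + 1, c)
  | .vertex, (k, c) => (0, k :: c)
  | .edge, p => p

theorem dsq_ticks (c : List ℕ) : ∀ n : ℕ,
    (List.replicate n GLetter.tick).foldr dsq (0, c) = (n, c)
  | 0 => rfl
  | n + 1 => by
    rw [List.replicate_succ, List.foldr_cons, dsq_ticks c n]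
    rfl

theorem dsq_enc : ∀ s : List ℕ, (encSeq s).foldr dsq (0, []) = (0, s)
  | [] => rfl
  | v :: s => by
    have ih := dsq_enc s
    have h : encSeq (v :: s) = .vertex :: (List.replicate v .tick ++ encSeq s) := by
      simp [encSeq]
    rw [h, List.foldr_cons, List.foldr_append, ih, dsq_ticks]
    rfl

theorem encSeq_injective : Function.Injective encSeq := by
  intro s t h
  have h1 := dsq_enc s
  rw [h, dsq_enc t] at h1
  exact (Prod.mk.inj h1).2.symm

theorem length_encSeq : ∀ s : List ℕ, (encSeq s).length = (s.map (· + 1)).sum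
  | [] => rfl
  | v :: s => by
    have h : encSeq (v :: s) = .vertex :: (List.replicate v .tick ++ encSeq s) := by
      simp [encSeq]
    rw [h, List.length_cons, List.length_append, List.length_replicate, length_encSeq s,
      List.map_cons, List.sum_cons]
    omega

theorem length_encodeEdges : ∀ l : List (ℕ × ℕ),
    ((l.flatMap fun p => [p.1, p.2]).map (· + 1)).sum ≤ (encodeEdges l).length
  | [] => le_rfl
  | p :: l => by
    have ih := length_encodeEdges l
    have h : encodeEdges (p :: l) = .edge :: (.vertex :: (List.replicate p.1 .tick ++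
        (.vertex :: (List.replicate p.2 .tick ++ encodeEdges l)))) := by
      simp [encodeEdges]
    rw [h, List.flatMap_cons, List.map_append, List.sum_append]
    simp only [List.length_cons, List.length_append, List.length_replicate, List.map_cons,
      List.map_nil, List.sum_cons, List.sum_nil]
    omega

theorem length_le (l : List (ℕ × ℕ)) (s : List ℕ) (hs : s.Nodup) (h : ∀ v ∈ s, Occurs l v) :
    (encSeq s).length ≤ (encodeEdges l).length := by
  refine le_trans ?_ (length_encodeEdges l)
  rw [length_encSeq]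
  have hsub : s ⊆ l.flatMap fun p => [p.1, p.2] := by
    intro v hv
    obtain ⟨p, hp, e⟩ := h v hv
    refine List.mem_flatMap.2 ⟨p, hp, ?_⟩
    rcases e with e | e <;> simp [e]
  obtain ⟨t, ht, hsl⟩ := hs.subperm hsub
  rw [← (ht.map (· + 1)).sum_eq]
  exact (hsl.map _).sum_le_sum (fun _ _ => Nat.zero_le _)

/-- MEM -/
theorem mem (hS : SeqStmt) (hV : VerStmt) : MemStmt := by
  classical
  intro k
  refine ⟨GLetter, inferInstance, _, Polynomial.X, hV k, ?_⟩
  intro x
  have key : Nat.card {c : List GLetter // c.length ≤ (Polynomial.X : Polynomial ℕ).eval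
      ((barnette k).enc x).length ∧ decide (∃ s, c = encSeq s ∧ IsHamSeq x.1 s) = true} =
      hamCount (graphOf x.1) := by
    rw [← hS x.1 x.2]
    symm
    refine Nat.card_congr (Equiv.ofBijective (fun s : {s : List ℕ // IsHamSeq x.1 s} =>
      (⟨encSeq s.1, ?_, decide_eq_true ⟨s.1, rfl, s.2⟩⟩ :
        {c : List GLetter // c.length ≤ (Polynomial.X : Polynomial ℕ).eval
          ((barnette k).enc x).length ∧
          decide (∃ s, c = encSeq s ∧ IsHamSeq x.1 s) = true})) ⟨?_, ?_⟩)
    · rw [Polynomial.eval_X]
      exact length_le x.1 s.1 s.2.1 fun v hv => (s.2.2.1 v).2 hv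
    · intro s t h
      exact Subtype.ext (encSeq_injective (congrArg Subtype.val h))
    · rintro ⟨c, h1, h2⟩
      obtain ⟨s, rfl, hs⟩ := of_decide_eq_true h2
      exact ⟨⟨s, hs⟩, rfl⟩
  have h2 : (barnette k).Yes x ↔ ¬ k ∣ hamCount (graphOf x.1) := Iff.rfl
  rw [h2, ← key]

end Pool.Agent.HAM.H51
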