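import Pool.Agent.Helper43_HAM.Stmts

/-!
# Squad HAM, module SEQ: Hamiltonian cycles and sequences of vertices
-/

set_option autoImplicit false

namespace Pool.Agent.HAM.H51

/-! ### Cyclic indexing -/

/-- the element of a cyclic list at the place `i` -/
def ci (s : List ℕ) (i : ℕ) : ℕ := s.getD (i % s.length) 0

theorem ci_lt (s : List ℕ) (i : ℕ) (h : i < s.length) : ci s i = s[i] := by
  unfold ci
  rw [Nat.mod_eq_of_lt h, List.getD_eq_getElem _ _ h]

theorem ci_congr (s : List ℕ) (i j : ℕ) (h : i ≡ j [MOD s.length]) : ci s i = ci s j := by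
  unfold ci
  rw [show i % s.length = j % s.length from h]

theorem ci_mod (s : List ℕ) (i : ℕ) : ci s (i % s.length) = ci s i :=
  ci_congr _ _ _ (Nat.mod_modEq _ _)

theorem ci_mem (s : List ℕ) (hs : 0 < s.length) (i : ℕ) : ci s i ∈ s := by
  have h := Nat.mod_lt i hs
  unfold ci
  rw [List.getD_eq_getElem _ _ h]
  exact List.getElem_mem h

theorem mem_ci (s : List ℕ) (a : ℕ) (h : a ∈ s) : ∃ i, i < s.length ∧ ci s i = a := by
  obtain ⟨i, hi, e⟩ := List.mem_iff_getElem.1 h
  exact ⟨i, hi, by rw [ci_lt s i hi, e]⟩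

theorem ci_inj (s : List ℕ) (hd : s.Nodup) (hs : 0 < s.length) (i j : ℕ) (h : ci s i = ci s j) :
    i ≡ j [MOD s.length] := by
  have hi := Nat.mod_lt i hs
  have hj := Nat.mod_lt j hs
  unfold ci at h
  rw [List.getD_eq_getElem _ _ hi, List.getD_eq_getElem _ _ hj] at h
  exact (List.Nodup.getElem_inj_iff hd).1 h

theorem mem_cpairs (s : List ℕ) (hs : 0 < s.length) (a b : ℕ) :
    (a, b) ∈ cpairs s ↔ ∃ i, ci s i = a ∧ ci s (i + 1) = b := by
  unfold cpairs
  constructor
  · intro h
    obtain ⟨i, hi, e⟩ := List.mem_iff_getElem.1 h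
    have hi' : i < s.length := by
      rw [List.length_zip, List.length_rotate, min_self] at hi
      exact hi
    rw [List.getElem_zip, List.getElem_rotate] at e
    have e1 := (Prod.mk.inj e).1
    have e2 := (Prod.mk.inj e).2
    refine ⟨i, by rw [ci_lt s i hi', e1], ?_⟩
    have h2 := Nat.mod_lt (i + 1) hs
    rw [← ci_mod, ci_lt s _ h2, e2]
  · rintro ⟨i, h1, h2⟩
    have hi := Nat.mod_lt i hs
    have hl : i % s.length < (s.zip (s.rotate 1)).length := by
      rw [List.length_zip, List.length_rotate, min_self]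
      exact hi
    refine List.mem_iff_getElem.2 ⟨i % s.length, hl, ?_⟩
    rw [List.getElem_zip, List.getElem_rotate]
    have hk := Nat.mod_lt (i % s.length + 1) hs
    have e1 : s[i % s.length] = a := by
      rw [← h1, ← ci_mod, ci_lt s _ hi]
    have e2 : s[(i % s.length + 1) % s.length] = b := by
      rw [← h2, ← ci_lt s _ hk]
      apply ci_congr
      exact (Nat.mod_modEq _ _).trans (Nat.ModEq.add_right 1 (Nat.mod_modEq _ _))
    exact Prod.ext e1 e2

/-! ### The graph of a sequence -/

/-- the cycle with the vertices of a sequence -/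
def sgr (P : ℕ → Prop) (s : List ℕ) : SimpleGraph {v : ℕ // P v} where
  Adj u v := u ≠ v ∧ ((u.1, v.1) ∈ cpairs s ∨ (v.1, u.1) ∈ cpairs s)
  symm := ⟨fun _ _ h => ⟨h.1.symm, h.2.symm⟩⟩
  loopless := ⟨fun _ h => h.1 rfl⟩

section Seq

variable {P : ℕ → Prop} (s : List ℕ) (hd : s.Nodup) (hN : 3 ≤ s.length)

include hN in
theorem ne_step (i : ℕ) : ¬ i ≡ i + 1 [MOD s.length] := by
  intro h
  have h1 : 0 ≡ 1 [MOD s.length] := by
    have : i + 0 ≡ i + 1 [MOD s.length] := h
    exact Nat.ModEq.add_left_cancel' i this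
  have h2 := (Nat.modEq_zero_iff_dvd.1 h1.symm)
  have := Nat.le_of_dvd one_pos h2
  omega

include hN in
theorem ne_two (i : ℕ) : ¬ i + 1 ≡ i + s.length - 1 [MOD s.length] := by
  intro h
  have h1 : i + 1 + 1 ≡ i + s.length - 1 + 1 [MOD s.length] := Nat.ModEq.add_right 1 h
  have e : i + s.length - 1 + 1 = i + s.length := by omega
  rw [e] at h1
  have h2 : i + 2 ≡ i + 0 [MOD s.length] := by
    refine h1.trans ?_
    exact Nat.ModEq.add_left i (Nat.modEq_zero_iff_dvd.2 dvd_rfl)
  have h3 := Nat.ModEq.add_left_cancel' i h2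
  have := Nat.le_of_dvd two_pos (Nat.modEq_zero_iff_dvd.1 h3)
  omega

include hd hN in
theorem adj_iff (i : ℕ) (u v : {v : ℕ // P v}) (hu : u.1 = ci s i) :
    (sgr P s).Adj u v ↔ v.1 = ci s (i + 1) ∨ v.1 = ci s (i + s.length - 1) := by
  have hs : 0 < s.length := by omega
  have e : i + s.length - 1 + 1 = i + s.length := by omega
  have e2 : i + s.length ≡ i [MOD s.length] := by
    simp [Nat.ModEq]
  constructor
  · rintro ⟨_, h⟩
    rw [mem_cpairs s hs, mem_cpairs s hs] at h
    rcases h with ⟨j, h1, h2⟩ | ⟨j, h1, h2⟩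
    · left
      rw [← h2]
      exact ci_congr _ _ _ (Nat.ModEq.add_right 1 (ci_inj s hd hs _ _ (h1.trans hu)))
    · right
      rw [← h1]
      apply ci_congr
      have h3 : j + 1 ≡ i [MOD s.length] := ci_inj s hd hs _ _ (h2.trans hu)
      have h4 : j + 1 ≡ i + s.length - 1 + 1 [MOD s.length] := by
        rw [e]
        exact h3.trans e2.symm
      exact Nat.ModEq.add_right_cancel' 1 h4
  · intro h
    rcases h with h | h
    · refine ⟨?_, Or.inl ((mem_cpairs s hs _ _).2 ⟨i, hu.symm, h.symm⟩)⟩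
      intro huv
      rw [huv] at hu
      exact ne_step s hN i (ci_inj s hd hs _ _ (hu.symm.trans h))
    · have h5 : ci s (i + s.length - 1 + 1) = u.1 := by
        rw [e, hu]
        exact ci_congr _ _ _ e2
      refine ⟨?_, Or.inr ((mem_cpairs s hs _ _).2 ⟨_, h.symm, h5⟩)⟩
      intro huv
      rw [huv, h] at h5
      exact ne_step s hN _ (ci_inj s hd hs _ _ h5.symm)

variable (hP : ∀ v, P v ↔ v ∈ s)

/-- the vertex at the place `i` -/
def vx (i : ℕ) : {v : ℕ // P v} :=
  ⟨ci s i, (hP _).2 (ci_mem s (by omega) i)⟩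

include hd hN hP in
theorem nbr (i : ℕ) : (sgr P s).neighborSet (vx s hN hP i) =
    {vx s hN hP (i + 1), vx s hN hP (i + s.length - 1)} := by
  ext v
  rw [SimpleGraph.mem_neighborSet, adj_iff s hd hN i _ v rfl]
  simp only [Set.mem_insert_iff, Set.mem_singleton_iff, vx, Subtype.ext_iff]

include hd hN hP in
theorem deg (v : {v : ℕ // P v}) : ((sgr P s).neighborSet v).ncard = 2 := by
  have hs : 0 < s.length := by omega
  obtain ⟨i, _, e⟩ := mem_ci s v.1 ((hP _).1 v.2)
  have hv : v = vx s hN hP i := Subtype.ext e.symm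
  rw [hv, nbr s hd hN hP, Set.ncard_pair]
  intro h
  exact ne_two s hN i (ci_inj s hd hs _ _ (Subtype.ext_iff.1 h))

include hd hN hP in
theorem conn_sgr : (sgr P s).Connected := by
  have key : ∀ i, (sgr P s).Reachable (vx s hN hP 0) (vx s hN hP i) := by
    intro i
    induction i with
    | zero => exact SimpleGraph.Reachable.refl _
    | succ i ih =>
      refine ih.trans (SimpleGraph.Adj.reachable ?_)
      exact (adj_iff s hd hN i _ _ rfl).2 (Or.inl rfl)
  have : Nonempty {v : ℕ // P v} := ⟨vx s hN hP 0⟩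
  refine SimpleGraph.Connected.mk ?_
  intro u v
  obtain ⟨i, _, e⟩ := mem_ci s u.1 ((hP _).1 u.2)
  obtain ⟨j, _, e'⟩ := mem_ci s v.1 ((hP _).1 v.2)
  have hu : u = vx s hN hP i := Subtype.ext e.symm
  have hv : v = vx s hN hP j := Subtype.ext e'.symm
  rw [hu, hv]
  exact (key i).symm.trans (key j)

end Seq

/-- two sequences with the same graph are equal -/
theorem seq_inj {P : ℕ → Prop} (s t : List ℕ) (hs : s.Nodup) (ht : t.Nodup)
    (h3 : 3 ≤ s.length) (hPs : ∀ v, P v ↔ v ∈ s) (hPt : ∀ v, P v ↔ v ∈ t)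
    (h0s : s.head? = some 0) (h0t : t.head? = some 0)
    (h1s : s.getD 1 0 < s.getLastD 0) (h1t : t.getD 1 0 < t.getLastD 0)
    (h : sgr P s = sgr P t) : s = t := by
  have hlen : s.length = t.length := by
    rw [← List.toFinset_card_of_nodup hs, ← List.toFinset_card_of_nodup ht]
    congr 1
    ext v
    rw [List.mem_toFinset, List.mem_toFinset, ← hPs, ← hPt]
  have h3t : 3 ≤ t.length := by omega
  have zero : ∀ r : List ℕ, 3 ≤ r.length → r.head? = some 0 → ci r 0 = 0 := by
    intro r hr h0
    rw [ci_lt r 0 (by omega)]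
    rw [List.head?_eq_getElem?, List.getElem?_eq_getElem (by omega)] at h0
    exact Option.some.inj h0
  have one : ∀ r : List ℕ, 3 ≤ r.length → ci r 1 = r.getD 1 0 := by
    intro r hr
    rw [ci_lt r 1 (by omega), List.getD_eq_getElem _ _ (by omega)]
  have lst : ∀ r : List ℕ, 3 ≤ r.length → ci r (0 + r.length - 1) = r.getLastD 0 := by
    intro r hr
    rw [ci_lt r _ (by omega), List.getLastD_eq_getLast?, List.getLast?_eq_getElem?,
      List.getElem?_eq_getElem (by omega)]
    simp
  have nb : ∀ i j, ci s i = ci t j →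
      ({ci s (i + 1), ci s (i + s.length - 1)} : Set ℕ) =
        {ci t (j + 1), ci t (j + t.length - 1)} := by
    intro i j hij
    have e1 := nbr s hs h3 hPs i
    have e2 := nbr t ht h3t hPt j
    have e3 : vx s h3 hPs i = vx t h3t hPt j := Subtype.ext hij
    rw [h, e3, e2] at e1
    have e4 := congrArg (Set.image Subtype.val) e1
    rw [Set.image_pair, Set.image_pair] at e4
    exact e4.symm
  have main : ∀ i, i + 1 < s.length → ci s i = ci t i ∧ ci s (i + 1) = ci t (i + 1) := by
    intro i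
    induction i with
    | zero =>
      intro _
      have e0 : ci s 0 = ci t 0 := by rw [zero s h3 h0s, zero t h3t h0t]
      refine ⟨e0, ?_⟩
      have e := nb 0 0 e0
      rw [zero_add, lst s h3, lst t h3t, one s h3, one t h3t] at e
      rw [zero_add, one s h3, one t h3t]
      have m1 : s.getD 1 0 ∈ ({t.getD 1 0, t.getLastD 0} : Set ℕ) := by
        rw [← e]; simp
      have m2 : s.getLastD 0 ∈ ({t.getD 1 0, t.getLastD 0} : Set ℕ) := by
        rw [← e]; simp
      simp only [Set.mem_insert_iff, Set.mem_singleton_iff] at m1 m2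
      omega
    | succ i ih =>
      intro hi
      obtain ⟨e0, e1⟩ := ih (by omega)
      refine ⟨e1, ?_⟩
      have e := nb (i + 1) (i + 1) e1
      have r1 : ci s (i + 1 + s.length - 1) = ci s i := by
        apply ci_congr
        rw [show i + 1 + s.length - 1 = i + s.length by omega]
        simp [Nat.ModEq]
      have r2 : ci t (i + 1 + t.length - 1) = ci t i := by
        apply ci_congr
        rw [show i + 1 + t.length - 1 = i + t.length by omega]
        simp [Nat.ModEq]
      rw [r1, r2] at e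
      have m1 : ci s (i + 1 + 1) ∈ ({ci t (i + 1 + 1), ci t i} : Set ℕ) := by
        rw [← e]; simp
      simp only [Set.mem_insert_iff, Set.mem_singleton_iff] at m1
      rcases m1 with m1 | m1
      · exact m1
      · exfalso
        rw [← e0] at m1
        have := ci_inj s hs (by omega) _ _ m1
        have h2 : i + 2 ≡ i + 0 [MOD s.length] := this
        have h4 := Nat.ModEq.add_left_cancel' i h2
        have := Nat.le_of_dvd two_pos (Nat.modEq_zero_iff_dvd.1 h4)
        omega
  apply List.ext_getElem hlen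
  intro i hi hi'
  rw [← ci_lt s i hi, ← ci_lt t i hi']
  rcases Nat.lt_or_ge (i + 1) s.length with h4 | h4
  · exact (main i h4).1
  · have := (main (i - 1) (by omega)).2
    rw [show i - 1 + 1 = i by omega] at this
    exact this

/-- a connected graph with all degrees two is the graph of a sequence -/
theorem seq_surj {P : ℕ → Prop} [Finite {v : ℕ // P v}] (H : SimpleGraph {v : ℕ // P v})
    (hc : H.Connected) (h2 : ∀ v, (H.neighborSet v).ncard = 2) (h0 : P 0) :
    ∃ s : List ℕ, s.Nodup ∧ 3 ≤ s.length ∧ (∀ v, P v ↔ v ∈ s) ∧ s.head? = some 0 ∧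
      s.getD 1 0 < s.getLastD 0 ∧ sgr P s = H := by
  classical
  have hcyc : H.IsCycles := fun v _ => h2 v
  have hne : (H.neighborSet ⟨0, h0⟩).Nonempty := by
    apply Set.nonempty_of_ncard_ne_zero
    rw [h2]
    decide
  obtain ⟨p0, hp0, hv0⟩ := hcyc.exists_cycle_toSubgraph_verts_eq_connectedComponentSupp
    (v := ⟨0, h0⟩) (c := H.connectedComponentMk ⟨0, h0⟩)
    (SimpleGraph.ConnectedComponent.mem_supp_iff _ _ |>.2 rfl) hne
  have hall0 : ∀ v, v ∈ p0.support := by
    intro v
    rw [← SimpleGraph.Walk.mem_verts_toSubgraph, hv0, SimpleGraph.ConnectedComponent.mem_supp_iff,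
      SimpleGraph.ConnectedComponent.eq]
    exact hc.preconnected v ⟨0, h0⟩
  -- choose the direction
  have hdir : ∃ p : H.Walk ⟨0, h0⟩ ⟨0, h0⟩, p.IsCycle ∧ (∀ v, v ∈ p.support) ∧
      p.snd.1 < p.penultimate.1 := by
    have hsp := hp0.snd_ne_penultimate
    rcases lt_trichotomy p0.snd.1 p0.penultimate.1 with h | h | h
    · exact ⟨p0, hp0, hall0, h⟩
    · exact absurd (Subtype.ext h) hsp
    · refine ⟨p0.reverse, hp0.reverse, ?_, ?_⟩
      · intro v
        rw [SimpleGraph.Walk.support_reverse]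
        exact List.mem_reverse.2 (hall0 v)
      · rw [SimpleGraph.Walk.snd_reverse, SimpleGraph.Walk.penultimate_reverse]
        exact h
  obtain ⟨p, hp, hall, hdir⟩ := hdir
  have hl := hp.three_le_length
  set N := p.length with hNd
  set s : List ℕ := (List.range N).map fun i => (p.getVert i).1 with hsd
  have hsl : s.length = N := by rw [hsd]; simp
  have hget : ∀ i, i < N → s.getD i 0 = (p.getVert i).1 := by
    intro i hi
    rw [List.getD_eq_getElem _ _ (by omega)]
    simp [hsd]
  have hcil : ∀ i, i ≤ N → ci s i = (p.getVert i).1 := by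
    intro i hi
    rcases Nat.lt_or_ge i N with h | h
    · unfold ci
      rw [hsl, Nat.mod_eq_of_lt h, hget i h]
    · have e : i = N := by omega
      unfold ci
      rw [e, hsl, Nat.mod_self, hget 0 (by omega), SimpleGraph.Walk.getVert_zero, hNd,
        SimpleGraph.Walk.getVert_length]
  have hnd : s.Nodup := by
    rw [hsd]
    refine List.Nodup.map_on ?_ List.nodup_range
    intro i hi j hj hij
    rw [List.mem_range] at hi hj
    exact hp.getVert_injOn' (by simp only [Set.mem_ofPred_eq]; omega)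
      (by simp only [Set.mem_ofPred_eq]; omega) (Subtype.ext hij)
  have hmem : ∀ v, P v ↔ v ∈ s := by
    intro v
    constructor
    · intro hv
      obtain ⟨i, e, hi⟩ := SimpleGraph.Walk.mem_support_iff_exists_getVert.1 (hall ⟨v, hv⟩)
      have e1 : ci s i = v := by rw [hcil i hi, e]
      rw [← e1]
      exact ci_mem s (by omega) i
    · intro hv
      rw [hsd, List.mem_map] at hv
      obtain ⟨i, _, e⟩ := hv
      rw [← e]
      exact (p.getVert i).2
  have h3 : 3 ≤ s.length := by omega
  have hle : sgr P s ≤ H := by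
    intro u v huv
    have hstep : ∀ i, ∀ a b : {v : ℕ // P v}, ci s i = a.1 → ci s (i + 1) = b.1 → H.Adj a b := by
      intro i a b ha hb
      have hi := Nat.mod_lt i (show 0 < s.length by omega)
      have ha' : ci s (i % s.length) = a.1 := by rw [ci_mod, ha]
      have hb' : ci s (i % s.length + 1) = b.1 := by
        rw [← hb]
        exact ci_congr _ _ _ (Nat.ModEq.add_right 1 (Nat.mod_modEq _ _))
      rw [hcil _ (by omega)] at ha' hb'
      have e1 : p.getVert (i % s.length) = a := Subtype.ext ha'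
      have e2 : p.getVert (i % s.length + 1) = b := Subtype.ext hb'
      rw [← e1, ← e2]
      exact p.adj_getVert_succ (by omega)
    obtain ⟨_, huv⟩ := huv
    rw [mem_cpairs s (by omega), mem_cpairs s (by omega)] at huv
    rcases huv with ⟨i, h1, h2⟩ | ⟨i, h1, h2⟩
    · exact hstep i u v h1 h2
    · exact (hstep i v u h1 h2).symm
  have heq : sgr P s = H := by
    ext u v
    have hsub : (sgr P s).neighborSet u ⊆ H.neighborSet u := fun w hw => hle hw
    have hE := Set.eq_of_subset_of_ncard_le hsub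
      (by rw [h2, deg s hnd h3 hmem]) (Set.toFinite _)
    rw [← SimpleGraph.mem_neighborSet, hE, SimpleGraph.mem_neighborSet]
  refine ⟨s, hnd, h3, hmem, ?_, ?_, heq⟩
  · rw [List.head?_eq_getElem?, List.getElem?_eq_getElem (by omega), ← ci_lt s 0 (by omega),
      hcil 0 (by omega), SimpleGraph.Walk.getVert_zero]
  · rw [hget 1 (by omega), List.getLastD_eq_getLast?, List.getLast?_eq_getElem?,
      List.getElem?_eq_getElem (by omega)]
    have e : s[s.length - 1] = (p.getVert (N - 1)).1 := by
      rw [← ci_lt s _ (by omega), hsl, hcil _ (by omega)]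
    simp only [Option.getD_some]
    rw [e]
    exact hdir

/-- SEQ -/
theorem seq : SeqStmt := by
  intro l hl
  have hcard : 4 ≤ Nat.card {v : ℕ // Occurs l v} := hl.connected.1
  have : Finite {v : ℕ // Occurs l v} := Nat.finite_of_card_ne_zero (by omega)
  have h0 : Occurs l 0 := by
    have : Nonempty {v : ℕ // Occurs l v} := (Nat.card_pos_iff.1 (by omega)).1
    obtain ⟨v, hv⟩ := this
    rcases Nat.eq_zero_or_pos v with h | h
    · rw [← h]; exact hv
    · exact hl.initial v hv 0 h
  have h3 : ∀ s, IsHamSeq l s → 3 ≤ s.length := by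
    intro s hs
    have e : Nat.card {v : ℕ // Occurs l v} = s.length := by
      have : {v : ℕ | Occurs l v} = (s.toFinset : Set ℕ) := by
        ext v
        simp [hs.2.1 v]
      have h1 : Nat.card {v : ℕ // Occurs l v} = Set.ncard {v : ℕ | Occurs l v} := rfl
      rw [h1, this, Set.ncard_coe_finset, List.toFinset_card_of_nodup hs.1]
    omega
  unfold hamCount
  refine Nat.card_congr (Equiv.ofBijective (fun s : {s : List ℕ // IsHamSeq l s} =>
    (⟨sgr (Occurs l) s.1, ?_, ?_, ?_⟩ : {H : SimpleGraph {v : ℕ // Occurs l v} //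
      H ≤ graphOf l ∧ H.Connected ∧ ∀ v, (H.neighborSet v).ncard = 2})) ⟨?_, ?_⟩)
  · rintro u v ⟨hne, h⟩
    refine ⟨hne, ?_⟩
    rcases h with h | h
    · exact s.2.2.2.1 _ h
    · exact (s.2.2.2.1 _ h).symm
  · exact conn_sgr s.1 s.2.1 (h3 _ s.2) s.2.2.1
  · exact deg s.1 s.2.1 (h3 _ s.2) s.2.2.1
  · intro s t h
    have h := congrArg Subtype.val h
    exact Subtype.ext (seq_inj s.1 t.1 s.2.1 t.2.1 (h3 _ s.2) s.2.2.1 t.2.2.1 s.2.2.2.2.1
      t.2.2.2.2.1 s.2.2.2.2.2 t.2.2.2.2.2 h)
  · rintro ⟨H, hle, hc, h2⟩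
    obtain ⟨s, hnd, h3s, hmem, hh, hlt, he⟩ := seq_surj H hc h2 h0
    refine ⟨⟨s, hnd, hmem, ?_, hh, hlt⟩, Subtype.ext he⟩
    rintro ⟨a, b⟩ hab
    have ha : Occurs l a := by
      obtain ⟨i, h1, _⟩ := (mem_cpairs s (by omega) a b).1 hab
      rw [← h1]
      exact (hmem _).2 (ci_mem s (by omega) i)
    have hb : Occurs l b := by
      obtain ⟨i, _, h1⟩ := (mem_cpairs s (by omega) a b).1 hab
      rw [← h1]
      exact (hmem _).2 (ci_mem s (by omega) _)
    have hne : a ≠ b := by
      obtain ⟨i, h1, h2'⟩ := (mem_cpairs s (by omega) a b).1 hab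
      intro hab'
      exact ne_step s h3s i (ci_inj s hnd (by omega) _ _ (h1.trans (hab'.trans h2'.symm)))
    have hadj : (sgr (Occurs l) s).Adj ⟨a, ha⟩ ⟨b, hb⟩ :=
      ⟨fun h => hne (congrArg Subtype.val h), Or.inl hab⟩
    rw [he] at hadj
    exact (hle hadj).2

end Pool.Agent.HAM.H51
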